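import Pool.Agent.TH774.TD.Slow

set_option autoImplicit false

namespace Pool.Agent.R492.TD

open Pool.Agent.Helper227 Pool.Agent.H685R3 Pool.Agent.TH774.TD
open Filter Topology

/-- `σ` is nondecreasing and unbounded, and its square increases by at most one between `n` and
`h n`. -/
def Slow (h : ℕ → ℕ) (σ : ℕ → ℝ) : Prop :=
  (∀ n, 0 ≤ σ n) ∧ Monotone σ ∧ Tendsto σ atTop atTop ∧ ∀ n, σ (h n) ^ 2 ≤ σ n ^ 2 + 1

theorem sqrt_sub_tendsto {A : ℕ → ℕ} {σ : ℕ → ℝ} {C : ℝ} (h0 : ∀ n, 0 ≤ σ n)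
    (hσ : Tendsto σ atTop atTop) (h : ∀ n, |(A n : ℝ) - σ n ^ 2| ≤ C) :
    Tendsto (fun n => √(A n : ℝ) - σ n) atTop (𝓝 0) := by
  have h2 : Tendsto (fun n => C * (σ n)⁻¹) atTop (𝓝 0) := by
    have := (tendsto_inv_atTop_zero.comp hσ).const_mul C
    rw [mul_zero] at this
    exact this
  refine squeeze_zero_norm' ?_ h2
  filter_upwards [hσ.eventually_ge_atTop 1] with n hn
  have h3 : √(A n : ℝ) ^ 2 = A n := Real.sq_sqrt (Nat.cast_nonneg _)
  have h4 := Real.sqrt_nonneg (A n : ℝ)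
  have h5 : |√(A n : ℝ) - σ n| * (√(A n : ℝ) + σ n) ≤ C := by
    have h6 : |√(A n : ℝ) - σ n| * |√(A n : ℝ) + σ n| ≤ C := by
      rw [← abs_mul]
      have h7 : (√(A n : ℝ) - σ n) * (√(A n : ℝ) + σ n) = A n - σ n ^ 2 := by
        linear_combination h3
      rw [h7]
      exact h n
    rwa [abs_of_nonneg (show 0 ≤ √(A n : ℝ) + σ n by linarith)] at h6
  rw [Real.norm_eq_abs, ← div_eq_mul_inv, le_div_iff₀ (by linarith)]
  have h8 := abs_nonneg (√(A n : ℝ) - σ n)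
  nlinarith

/-- Every cone contains reals whose slow functions follow any sufficiently slow function. -/
theorem slow_control (z : ℕ → Bool) : ∃ h : ℕ → ℕ, ∀ σ : ℕ → ℝ, Slow h σ →
    ∃ y, TLe z y ∧ Tendsto (fun n => sq y n - σ n) atTop (𝓝 0) := by
  obtain ⟨h', hh'⟩ := control_g z
  refine ⟨fun n => h' n + n + 1, fun σ ⟨h0, hmono, htop, hslow⟩ => ?_⟩
  have hsq : ∀ m n, m ≤ n → σ m ^ 2 ≤ σ n ^ 2 := fun m n hmn =>
    pow_le_pow_left₀ (h0 m) (hmono hmn) 2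
  have hfl : ∀ m n, m ≤ n → ⌊σ m ^ 2⌋₊ ≤ ⌊σ n ^ 2⌋₊ := fun m n hmn =>
    Nat.floor_le_floor (hsq m n hmn)
  have hfs : ∀ n, ⌊σ (h' n + n + 1) ^ 2⌋₊ ≤ ⌊σ n ^ 2⌋₊ + 1 := fun n => by
    calc ⌊σ (h' n + n + 1) ^ 2⌋₊ ≤ ⌊σ n ^ 2 + 1⌋₊ := Nat.floor_le_floor (hslow n)
      _ = ⌊σ n ^ 2⌋₊ + 1 := Nat.floor_add_one (by positivity)
  let a : ℕ → ℕ := fun m => ⌊σ m ^ 2⌋₊ - ⌊σ 0 ^ 2⌋₊
  have ha : Lazy a :=
    { zero := by simp [a]
      mono := fun m n hmn => Nat.sub_le_sub_right (hfl m n hmn) _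
      step := fun n => by
        have h1 := hfs n
        have h2 := hfl (n + 1) (h' n + n + 1) (by omega)
        have h3 := hfl 0 n (Nat.zero_le _)
        simp only [a]
        omega
      top := by
        have h1 : Tendsto (fun m => ⌊σ m ^ 2⌋₊) atTop atTop :=
          tendsto_nat_floor_atTop.comp ((tendsto_pow_atTop (by norm_num)).comp htop)
        refine tendsto_atTop.2 fun b => ?_
        filter_upwards [h1.eventually_ge_atTop (b + ⌊σ 0 ^ 2⌋₊)] with m hm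
        simp only [a]
        omega }
  obtain ⟨J, hJ, hJa⟩ := ha.exists
  obtain ⟨y, hy, hy'⟩ := hh' J hJ fun k => by
    have h1 : a (J k) ≤ k := by
      have h2 : ¬ k < lc J (J k) := fun h3 => lt_irrefl _ ((lt_lc hJ).1 h3)
      rw [hJa] at h2
      omega
    have h3 : a (h' (J k) + 1) ≤ k + 1 := by
      have h4 := hfs (J k)
      have h5 := hfl (h' (J k) + 1) (h' (J k) + J k + 1) (by omega)
      have h6 := hfl 0 (J k) (Nat.zero_le _)
      simp only [a] at h1 ⊢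
      omega
    by_contra hc
    have h4 : J (k + 1) < h' (J k) + 1 := by omega
    have h5 := (lt_lc hJ).2 h4
    rw [hJa] at h5
    omega
  refine ⟨y, hy, ?_⟩
  have h1 : Tendsto (fun m => √(al y m : ℝ) - √(a m : ℝ)) atTop (𝓝 0) := by
    refine sqrt_close (tendsto_al y) ?_
    filter_upwards [hy'] with m hm
    rw [hJa] at hm
    exact hm
  have h2 : Tendsto (fun m => √(a m : ℝ) - σ m) atTop (𝓝 0) := by
    refine sqrt_sub_tendsto (C := ⌊σ 0 ^ 2⌋₊ + 1) h0 htop fun n => ?_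
    have h3 := hfl 0 n (Nat.zero_le _)
    have h4 : (⌊σ n ^ 2⌋₊ : ℝ) ≤ σ n ^ 2 := Nat.floor_le (by positivity)
    have h5 : σ n ^ 2 < ⌊σ n ^ 2⌋₊ + 1 := Nat.lt_floor_add_one _
    have h6 : ((a n : ℕ) : ℝ) = (⌊σ n ^ 2⌋₊ : ℝ) - ⌊σ 0 ^ 2⌋₊ := by
      simp only [a]
      rw [Nat.cast_sub h3]
    have h7 : (0 : ℝ) ≤ ⌊σ 0 ^ 2⌋₊ := Nat.cast_nonneg _
    rw [h6, abs_le]
    constructor <;> linarith
  have h3 := h1.add h2
  rw [add_zero] at h3
  refine h3.congr fun m => ?_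
  unfold Pool.Agent.TH774.TD.sq
  ring

theorem join_two (z z' : ℕ → Bool) : ∃ w : ℕ → Bool, TLe z w ∧ TLe z' w := by
  obtain ⟨w, hw⟩ := Pool.Agent.W885.TD.join_cone fun n => if n = 0 then z else z'
  refine ⟨w, ?_, ?_⟩
  · have := hw 0
    simpa using this
  · have := hw 1
    simpa using this

end Pool.Agent.R492.TD
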