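import Pool.Agent.TH774.TD.Add

set_option autoImplicit false

namespace Pool.Agent.R492.TD

open Pool.Agent.Helper227 Pool.Agent.H685R3 Pool.Agent.TH774.TD
open Filter Topology

theorem wv_sub_int (x : ℝ) (k : ℤ) : wv (x - k) = wv x := by
  rw [wv_eq, wv_eq]
  have h1 : 2 * (Real.pi * (x - k)) = 2 * (Real.pi * x) - k * (2 * Real.pi) := by ring
  rw [h1, Real.cos_sub_int_mul_two_pi]

theorem wv_zero : wv 0 = 0 := by simp [wv]

theorem wv_int (k : ℤ) : wv k = 0 := by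
  have h1 := wv_sub_int k k
  rw [sub_self, wv_zero] at h1
  exact h1.symm

theorem wv_half_add_int (k : ℤ) : wv (1 / 2 + k) = 1 := by
  have h1 := wv_sub_int (1 / 2 + k) k
  rw [add_sub_cancel_right] at h1
  rw [← h1, wv]
  have h2 : Real.pi * (1 / 2) = Real.pi / 2 := by ring
  rw [h2, Real.sin_pi_div_two]
  norm_num

theorem split (x : ℝ) : ∃ k : ℤ, ((x + dl x) / 2 = x - k ∧ (x - dl x) / 2 = k) ∨
    ((x + dl x) / 2 = k ∧ (x - dl x) / 2 = x - k) := by
  refine ⟨round (x / 2), ?_⟩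
  rcases le_total 0 (x - 2 * round (x / 2)) with h | h
  · left
    have h1 : dl x = x - 2 * round (x / 2) := by rw [dl, abs_of_nonneg h]
    rw [h1]
    constructor <;> ring
  · right
    have h1 : dl x = -(x - 2 * round (x / 2)) := by rw [dl, abs_of_nonpos h]
    rw [h1]
    constructor <;> ring

theorem alt (x : ℝ) : (wv ((x + dl x) / 2) = wv x ∧ wv ((x - dl x) / 2) = 0) ∨
    (wv ((x + dl x) / 2) = 0 ∧ wv ((x - dl x) / 2) = wv x) := by
  obtain ⟨k, ⟨h1, h2⟩ | ⟨h1, h2⟩⟩ := split x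
  · left
    rw [h1, h2]
    exact ⟨wv_sub_int _ _, wv_int _⟩
  · right
    rw [h1, h2]
    exact ⟨wv_int _, wv_sub_int _ _⟩

theorem nice_half {θ : ℝ → ℝ} (h : Nice θ) :
    Nice fun x => min x (1 / 2 + θ (max (x - 1 / 2) 0)) where
  nonneg := fun x hx => le_min hx (by
    have := h.nonneg (max (x - 1 / 2) 0) (le_max_right _ _)
    linarith)
  le := fun x _ => min_le_left _ _
  mono := fun x y _ hxy => min_le_min hxy (by
    have := h.mono (max (x - 1 / 2) 0) (max (y - 1 / 2) 0) (le_max_right _ _)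
      (max_le_max (by linarith) le_rfl)
    linarith)
  lip := fun x y _ hxy => by
    have h1 := h.lip (max (x - 1 / 2) 0) (max (y - 1 / 2) 0) (le_max_right _ _)
      (max_le_max (by linarith) le_rfl)
    have h2 : max (y - 1 / 2) 0 - max (x - 1 / 2) 0 ≤ y - x := by
      rcases le_total (y - 1 / 2) 0 with h3 | h3
      · rw [max_eq_right h3, max_eq_right (show x - 1 / 2 ≤ 0 by linarith)]
        linarith
      · rw [max_eq_left h3]
        have := le_max_left (x - 1 / 2) 0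
        linarith
    rcases le_total x (1 / 2 + θ (max (x - 1 / 2) 0)) with h3 | h3
    · have h4 := min_le_left y (1 / 2 + θ (max (y - 1 / 2) 0))
      rw [min_eq_left h3]
      linarith
    · have h4 := min_le_right y (1 / 2 + θ (max (y - 1 / 2) 0))
      rw [min_eq_right h3]
      linarith
  top := by
    have h1 : Tendsto (fun x : ℝ => max (x - 1 / 2) 0) atTop atTop := by
      refine tendsto_atTop_mono (f := fun x : ℝ => x + (-(1 / 2))) (fun x => ?_)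
        (tendsto_atTop_add_const_right _ _ tendsto_id)
      have := le_max_left (x - 1 / 2) 0
      linarith
    have h2 : Tendsto (fun x : ℝ => 1 / 2 + θ (max (x - 1 / 2) 0)) atTop atTop :=
      tendsto_atTop_add_const_left _ _ (h.top.comp h1)
    refine tendsto_atTop.2 fun b => ?_
    filter_upwards [eventually_ge_atTop b, h2.eventually_ge_atTop b] with x h3 h4
    exact le_min h3 h4

theorem half_eq {θ : ℝ → ℝ} (h : Nice θ) {x : ℝ} (hx : 1 / 2 ≤ x) :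
    min x (1 / 2 + θ (max (x - 1 / 2) 0)) = 1 / 2 + θ (x - 1 / 2) := by
  rw [max_eq_left (by linarith)]
  have := h.le (x - 1 / 2) (by linarith)
  exact min_eq_right (by linarith)

theorem alt_half {x : ℝ} (hx : 1 / 2 ≤ x) :
    (wv (1 / 2 + ((x - 1 / 2) + dl (x - 1 / 2)) / 2) = wv x ∧
      wv (1 / 2 + ((x - 1 / 2) - dl (x - 1 / 2)) / 2) = 1) ∨
    (wv (1 / 2 + ((x - 1 / 2) + dl (x - 1 / 2)) / 2) = 1 ∧
      wv (1 / 2 + ((x - 1 / 2) - dl (x - 1 / 2)) / 2) = wv x) := by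
  obtain ⟨k, ⟨h1, h2⟩ | ⟨h1, h2⟩⟩ := split (x - 1 / 2)
  · left
    rw [h1, h2]
    refine ⟨?_, wv_half_add_int _⟩
    have h3 : 1 / 2 + (x - 1 / 2 - (k : ℝ)) = x - k := by ring
    rw [h3, wv_sub_int]
  · right
    rw [h1, h2]
    refine ⟨wv_half_add_int _, ?_⟩
    have h3 : 1 / 2 + (x - 1 / 2 - (k : ℝ)) = x - k := by ring
    rw [h3, wv_sub_int]

/-- Five waves inside every cone: `t₂` and `t₃` have disjoint supports and the join `t₁`; one of `a`
and `b` has the value one and the other one the value of `t₁`. -/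
theorem waves (z : ℕ → Bool) : ∃ (t₁ t₂ t₃ a b : ℕ → ℝ),
    ((∀ n, t₁ n ∈ Set.Icc (0 : ℝ) 1) ∧ (∀ n, t₂ n ∈ Set.Icc (0 : ℝ) 1) ∧
      (∀ n, t₃ n ∈ Set.Icc (0 : ℝ) 1) ∧ (∀ n, a n ∈ Set.Icc (0 : ℝ) 1) ∧
      (∀ n, b n ∈ Set.Icc (0 : ℝ) 1)) ∧
    ((∃ y, TLe z y ∧ Tendsto (fun n => rho y n - t₁ n) atTop (𝓝 0)) ∧
      (∃ y, TLe z y ∧ Tendsto (fun n => rho y n - t₂ n) atTop (𝓝 0)) ∧
      (∃ y, TLe z y ∧ Tendsto (fun n => rho y n - t₃ n) atTop (𝓝 0)) ∧
      (∃ y, TLe z y ∧ Tendsto (fun n => rho y n - a n) atTop (𝓝 0)) ∧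
      (∃ y, TLe z y ∧ Tendsto (fun n => rho y n - b n) atTop (𝓝 0))) ∧
    (∀ n, (t₂ n = t₁ n ∧ t₃ n = 0) ∨ (t₂ n = 0 ∧ t₃ n = t₁ n)) ∧
    ∀ n, (a n = t₁ n ∧ b n = 1) ∨ (a n = 1 ∧ b n = t₁ n) := by
  obtain ⟨s, hs0, hs, hw⟩ := walk_sq z
  obtain ⟨y₁, h1, e1⟩ := hw _ nice_id
  obtain ⟨y₂, h2, e2⟩ := hw _ nice_two
  obtain ⟨y₃, h3, e3⟩ := hw _ nice_three
  obtain ⟨y₄, h4, e4⟩ := hw _ (nice_half nice_two)
  obtain ⟨y₅, h5, e5⟩ := hw _ (nice_half nice_three)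
  have ev : ∀ᶠ n in atTop, 1 / 2 ≤ s n := hs.eventually_ge_atTop (1 / 2)
  refine ⟨fun n => wv (s n), fun n => wv ((s n + dl (s n)) / 2),
    fun n => wv ((s n - dl (s n)) / 2),
    fun n => if 1 / 2 ≤ s n then wv (1 / 2 + ((s n - 1 / 2) + dl (s n - 1 / 2)) / 2) else 1,
    fun n => if 1 / 2 ≤ s n then wv (1 / 2 + ((s n - 1 / 2) - dl (s n - 1 / 2)) / 2)
      else wv (s n), ⟨fun n => wv_mem _, fun n => wv_mem _, fun n => wv_mem _, ?_, ?_⟩,
    ⟨⟨y₁, h1, rho_close_of e1⟩, ⟨y₂, h2, rho_close_of e2⟩, ⟨y₃, h3, rho_close_of e3⟩, ⟨y₄, h4, ?_⟩,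
      ⟨y₅, h5, ?_⟩⟩, fun n => alt _, ?_⟩
  · intro n
    simp only
    split_ifs
    · exact wv_mem _
    · exact ⟨zero_le_one, le_rfl⟩
  · intro n
    simp only
    split_ifs
    · exact wv_mem _
    · exact wv_mem _
  · refine (rho_close_of e4).congr' ?_
    filter_upwards [ev] with n hn
    simp only [hn, if_true]
    rw [half_eq nice_two hn]
    rfl
  · refine (rho_close_of e5).congr' ?_
    filter_upwards [ev] with n hn
    simp only [hn, if_true]
    rw [half_eq nice_three hn]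
    rfl
  · intro n
    simp only
    split_ifs with h
    · exact alt_half h
    · exact Or.inr ⟨rfl, rfl⟩

end Pool.Agent.R492.TD
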